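import Mathlib
import Pool.Agent.helper68.AM.SpecX

/-!
Project sl, module XN: every mapping class is a node of one of the two trees with a quarter turn.
-/

set_option autoImplicit false

namespace AM

open Pool.Agent.helper72.Sq Matrix

/-- `y` is, up to conjugacy, the pair of an index -/
def XN_N (y : F2 × F2) : Prop := ∃ i : Ix, PConj (pr i) y

/-- the four moves -/
def XN_mv : Fin 4 → F2 × F2 → F2 × F2
  | 0, x => (x.1, x.1 * x.2)
  | 1, x => (x.1 * x.2, x.2)
  | 2, x => (x.1, x.1⁻¹ * x.2)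
  | 3, x => (x.1 * x.2⁻¹, x.2)

theorem XN_refl (x : F2 × F2) : PConj x x := ⟨1, by simp, by simp⟩

theorem XN_trans {x y z : F2 × F2} (h1 : PConj x y) (h2 : PConj y z) : PConj x z := by
  obtain ⟨c, hc1, hc2⟩ := h1
  obtain ⟨d, hd1, hd2⟩ := h2
  refine ⟨d * c, ?_, ?_⟩
  · rw [hd1, hc1]; group
  · rw [hd2, hc2]; group

theorem XN_N_conj {x y : F2 × F2} (h : XN_N x) (hxy : PConj x y) : XN_N y := by
  obtain ⟨i, hi⟩ := h
  exact ⟨i, XN_trans hi hxy⟩

theorem XN_qt_conj {x y : F2 × F2} (h : PConj x y) : PConj (qt x) (qt y) := by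
  obtain ⟨c, hc1, hc2⟩ := h
  refine ⟨c, ?_, ?_⟩
  · simp only [qt]; exact hc2
  · simp only [qt]; rw [hc1]; group

theorem XN_mv_conj (m : Fin 4) {x y : F2 × F2} (h : PConj x y) :
    PConj (XN_mv m x) (XN_mv m y) := by
  obtain ⟨c, hc1, hc2⟩ := h
  refine ⟨c, ?_, ?_⟩ <;> fin_cases m <;> simp only [XN_mv, hc1, hc2] <;> group

theorem XN_qt4 (x : F2 × F2) : qt (qt (qt (qt x))) = x := by
  simp [qt]

theorem XN_N_qt {y : F2 × F2} (h : XN_N y) : XN_N (qt y) := by
  obtain ⟨⟨ε, w, τ⟩, hi⟩ := h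
  have h1 := XN_qt_conj hi
  refine ⟨(ε, w, τ + 1), ?_⟩
  have h2 : pr (ε, w, τ + 1) = qt (pr (ε, w, τ)) := by
    fin_cases τ <;> simp [pr, qt]
  rw [h2]
  exact h1

theorem XN_pd_append (w : List Bool) (b : Bool) (x : F2 × F2) :
    pd (w ++ [b]) x = pd [b] (pd w x) := by
  induction w generalizing x with
  | nil => rfl
  | cons c w ih =>
    cases c
    · simp only [List.cons_append, pd]
      exact ih _
    · simp only [List.cons_append, pd]
      exact ih _

/-- quarter turns and moves -/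
theorem XN_mv_qt (m : Fin 4) : ∃ m' : Fin 4, ∀ x : F2 × F2, PConj (qt (XN_mv m' x)) (XN_mv m (qt x)) := by
  fin_cases m
  · exact ⟨3, fun x => ⟨1, by simp [XN_mv, qt], by simp [XN_mv, qt]⟩⟩
  · exact ⟨2, fun x => ⟨x.1, by simp [XN_mv, qt, mul_assoc], by simp [XN_mv, qt, mul_assoc]⟩⟩
  · exact ⟨1, fun x => ⟨1, by simp [XN_mv, qt], by simp [XN_mv, qt]⟩⟩
  · exact ⟨0, fun x => ⟨x.1⁻¹, by simp [XN_mv, qt, mul_assoc], by simp [XN_mv, qt, mul_assoc]⟩⟩

/-- the moves applied to a node -/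
theorem XN_node (ε : Bool) (w : List Bool) (m : Fin 4) : XN_N (XN_mv m (pd w (rootp ε))) := by
  have hpr : ∀ (ε : Bool) (w : List Bool), pr (ε, w, 0) = pd w (rootp ε) := fun _ _ => rfl
  rcases List.eq_nil_or_concat w with rfl | ⟨w', b, rfl⟩
  · fin_cases m
    · exact ⟨(ε, [true], 0), XN_refl _⟩
    · exact ⟨(ε, [false], 0), XN_refl _⟩
    · cases ε
      · refine ⟨(true, [false], 1), 1, ?_, ?_⟩ <;> simp [pr, pd, rootp, qt, XN_mv]
      · refine ⟨(false, [false], 3), ga⁻¹, ?_, ?_⟩ <;>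
          simp [pr, pd, rootp, qt, XN_mv, mul_assoc]
    · cases ε
      · refine ⟨(true, [true], 1), ga⁻¹, ?_, ?_⟩ <;> simp [pr, pd, rootp, qt, XN_mv, mul_assoc]
      · refine ⟨(false, [true], 3), 1, ?_, ?_⟩ <;>
          simp [pr, pd, rootp, qt, XN_mv, mul_assoc]
  · rw [List.concat_eq_append, XN_pd_append]
    set x := pd w' (rootp ε) with hx
    have hL : pr (ε, w' ++ [true], 1) = qt (x.1, x.1 * x.2) := by
      simp only [pr]
      rw [XN_pd_append]
      rfl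
    have hR : pr (ε, w' ++ [false], 3) = qt (qt (qt (x.1 * x.2, x.2))) := by
      simp only [pr]
      rw [XN_pd_append]
      rfl
    fin_cases m
    · refine ⟨(ε, w' ++ [b] ++ [true], 0), ?_⟩
      rw [hpr, XN_pd_append, XN_pd_append]
      exact XN_refl _
    · refine ⟨(ε, w' ++ [b] ++ [false], 0), ?_⟩
      rw [hpr, XN_pd_append, XN_pd_append]
      exact XN_refl _
    · cases b
      · refine ⟨(ε, w' ++ [true], 1), ?_⟩
        rw [hL]
        refine ⟨x.2⁻¹ * x.1⁻¹, ?_, ?_⟩ <;> simp [pd, qt, XN_mv, mul_assoc]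
      · refine ⟨(ε, w', 0), ?_⟩
        rw [hpr]
        refine ⟨1, ?_, ?_⟩ <;> simp [pd, XN_mv, ← hx]
    · cases b
      · refine ⟨(ε, w', 0), ?_⟩
        rw [hpr]
        refine ⟨1, ?_, ?_⟩ <;> simp [pd, XN_mv, ← hx]
      · refine ⟨(ε, w' ++ [false], 3), ?_⟩
        rw [hR]
        refine ⟨x.1 * x.2, ?_, ?_⟩ <;> simp [pd, qt, XN_mv, mul_assoc]

theorem XN_iter (ε : Bool) (w : List Bool) (n : ℕ) :
    ∀ m : Fin 4, XN_N (XN_mv m (qt^[n] (pd w (rootp ε)))) := by
  induction n with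
  | zero => exact fun m => XN_node ε w m
  | succ n ih =>
    intro m
    obtain ⟨m', hm'⟩ := XN_mv_qt m
    rw [Function.iterate_succ_apply']
    exact XN_N_conj (XN_N_qt (ih m')) (hm' _)

theorem XN_move {y : F2 × F2} (h : XN_N y) (m : Fin 4) : XN_N (XN_mv m y) := by
  obtain ⟨⟨ε, w, τ⟩, hi⟩ := h
  exact XN_N_conj (XN_iter ε w τ.val m) (XN_mv_conj m hi)

theorem XN : XN_stmt := by
  intro φ hφ
  have key : ∀ φ : MulAut F2, φ ∈ MCG →
      (∀ ψ : MulAut F2, XN_N (ψ ga, ψ gb) → XN_N ((ψ * φ) ga, (ψ * φ) gb)) ∧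
      ∀ ψ : MulAut F2, XN_N (ψ ga, ψ gb) → XN_N ((ψ * φ⁻¹) ga, (ψ * φ⁻¹) gb) := by
    intro φ hφ
    refine Subgroup.closure_induction (p := fun φ _ =>
      (∀ ψ : MulAut F2, XN_N (ψ ga, ψ gb) → XN_N ((ψ * φ) ga, (ψ * φ) gb)) ∧
      ∀ ψ : MulAut F2, XN_N (ψ ga, ψ gb) → XN_N ((ψ * φ⁻¹) ga, (ψ * φ⁻¹) gb)) ?_ ?_ ?_ ?_ hφ
    · rintro x (rfl | rfl)
      · constructor
        · intro ψ hψ
          have := XN_move hψ 0
          simpa [XN_mv, MulAut.mul_apply] using this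
        · intro ψ hψ
          have := XN_move hψ 2
          have e1 : (ψ * (twA : MulAut F2)⁻¹) ga = ψ ga := by
            change ψ (twA.symm ga) = _
            rw [twA_symm_a]
          have e2 : (ψ * (twA : MulAut F2)⁻¹) gb = (ψ ga)⁻¹ * ψ gb := by
            change ψ (twA.symm gb) = _
            rw [twA_symm_b, map_mul, map_inv]
          rw [e1, e2]
          exact this
      · constructor
        · intro ψ hψ
          have := XN_move hψ 1
          simpa [XN_mv, MulAut.mul_apply] using this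
        · intro ψ hψ
          have := XN_move hψ 3
          have e1 : (ψ * (twB : MulAut F2)⁻¹) ga = ψ ga * (ψ gb)⁻¹ := by
            change ψ (twB.symm ga) = _
            rw [twB_symm_a, map_mul, map_inv]
          have e2 : (ψ * (twB : MulAut F2)⁻¹) gb = ψ gb := by
            change ψ (twB.symm gb) = _
            rw [twB_symm_b]
          rw [e1, e2]
          exact this
    · refine ⟨fun ψ hψ => ?_, fun ψ hψ => ?_⟩
      · simpa using hψ
      · simpa using hψ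
    · rintro x y _ _ ⟨hx1, hx2⟩ ⟨hy1, hy2⟩
      refine ⟨fun ψ hψ => ?_, fun ψ hψ => ?_⟩
      · rw [← mul_assoc]
        exact hy1 _ (hx1 _ hψ)
      · rw [_root_.mul_inv_rev, ← mul_assoc]
        exact hx2 _ (hy2 _ hψ)
    · rintro x _ ⟨hx1, hx2⟩
      refine ⟨hx2, ?_⟩
      rw [inv_inv]
      exact hx1
  have h1 : XN_N ((1 : MulAut F2) ga, (1 : MulAut F2) gb) :=
    ⟨(true, [], 0), XN_refl _⟩
  have h2 := (key φ hφ).1 1 h1
  rw [one_mul] at h2
  exact h2

end AM
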